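import Pool.Agent.W965.LU.Stms

/-! Project LU: ordered copy or sparse pair. -/

set_option autoImplicit false

namespace Pool.Agent.W240.LU.PAIR

open Pool.Agent.W965.LU

theorem main (h1 : S_SPLIT) (h2 : S_EMB) : S_PAIR := by
  intro g F Q m Z hQ hm hmZ
  have hb : 1 ≤ Z.card / m := (Nat.one_le_div_iff (by omega)).2 hmZ
  obtain ⟨W, hW, hord⟩ := h1 m (Z.card / m) Z (Nat.mul_div_le _ _)
  have hsz : ∀ x : ℕ, Z.card / m ≤ 1 * Q ^ m * m * x → Z.card ≤ 2 * m ^ 2 * Q ^ m * x := by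
    intro x hx
    have h3 : Z.card < m * (Z.card / m + 1) := by
      have := Nat.div_add_mod Z.card m
      have := Nat.mod_lt Z.card (show m > 0 by omega)
      nlinarith
    have h4 : m * (Z.card / m + 1) ≤ m * (2 * (Z.card / m)) := Nat.mul_le_mul_left _ (by omega)
    have h5 : m * (2 * (Z.card / m)) ≤ m * (2 * (1 * Q ^ m * m * x)) :=
      Nat.mul_le_mul_left _ (Nat.mul_le_mul_left _ hx)
    calc Z.card ≤ m * (2 * (1 * Q ^ m * m * x)) := by omega
      _ = 2 * m ^ 2 * Q ^ m * x := by ring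
  rcases h2 g Q m m 1 (Z.card / m) F W hQ le_rfl hb (fun i hi => by rw [(hW i hi).2, one_mul]) with
    ⟨x, hx, hF⟩ | ⟨i, j, A, D, c, hij, hj, hA, hD, hbA, hbD, hd⟩
  · left
    exact ⟨x, fun i hi => (hW i hi).1 (hx i hi), fun i j hij hj =>
      ⟨hord i j hij hj _ (hx i (hij.trans hj)) _ (hx j hj), hF i j hij hj⟩⟩
  · right
    refine ⟨A, D, c, hA.trans (hW i (hij.trans hj)).1, hD.trans (hW j hj).1, ?_, hsz _ hbA,
      hsz _ hbD, hd⟩
    rw [Finset.disjoint_left]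
    intro a ha ha'
    exact lt_irrefl _ (hord i j hij hj a (hA ha) a (hD ha'))

end Pool.Agent.W240.LU.PAIR
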